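import Pool.Agent.Results.MP_b69c94_gt.SquareNotLindelof

/-!
# MP_f9bcb0_lc, Q1: Rothberger spaces which are not `ω`-Rothberger exist in ZFC

The space is the topological sum of two topologies on a coherent Aronszajn tree (constructed in
`Pool.Agent.Results.MP_b69c94_gt.SquareNotLindelof`). Both topologies are Lindelöf,
zero-dimensional and have only countable second countable images; therefore the sum is Rothberger.
Its square is not Lindelöf.
-/

set_option autoImplicit false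

open Set Topology

namespace Pool.Agent.Results.MP_f9bcb0_lc.RothbergerNotOmega

universe u

/-- `𝒰` is an open cover of `X`. -/
def IsOpenCover {X : Type u} [TopologicalSpace X] (𝒰 : Set (Set X)) : Prop :=
  (∀ U ∈ 𝒰, IsOpen U) ∧ ⋃₀ 𝒰 = univ

/-- `𝒰` is an `ω`-cover of `X`: an open cover which does not contain `X` and such that every finite
subset of `X` is contained in a member of `𝒰`. -/
def IsOmegaCover {X : Type u} [TopologicalSpace X] (𝒰 : Set (Set X)) : Prop :=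
  IsOpenCover 𝒰 ∧ univ ∉ 𝒰 ∧ ∀ F : Set X, F.Finite → ∃ U ∈ 𝒰, F ⊆ U

/-- The Rothberger property. -/
def Rothberger (X : Type u) [TopologicalSpace X] : Prop :=
  ∀ 𝒰 : ℕ → Set (Set X), (∀ n, IsOpenCover (𝒰 n)) →
    ∃ U : ℕ → Set X, (∀ n, U n ∈ 𝒰 n) ∧ IsOpenCover (range U)

/-- The `ω`-Rothberger property. -/
def OmegaRothberger (X : Type u) [TopologicalSpace X] : Prop :=
  ∀ 𝒰 : ℕ → Set (Set X), (∀ n, IsOmegaCover (𝒰 n)) →
    ∃ U : ℕ → Set X, (∀ n, U n ∈ 𝒰 n) ∧ IsOmegaCover (range U)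

/-- The square of an `ω`-Rothberger space is Lindelöf. -/
theorem lindelof_square {X : Type u} [TopologicalSpace X] (hX : OmegaRothberger X) :
    LindelofSpace (X × X) := by
  classical
  refine ⟨isLindelof_of_countable_subcover fun {ι} W hW hcov => ?_⟩
  have hcov' : ∀ p : X × X, ∃ i, p ∈ W i := fun p => mem_iUnion.1 (hcov (mem_univ p))
  choose j hj using hcov'
  -- the sets whose squares are covered by finitely many members of the cover
  let 𝒰 : Set (Set X) := {U | IsOpen U ∧ ∃ t : Set ι, t.Finite ∧ U ×ˢ U ⊆ ⋃ i ∈ t, W i}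
  have hfin : ∀ F : Set X, F.Finite → ∃ U ∈ 𝒰, F ⊆ U := by
    intro F hF
    have hbox : ∀ p : X × X, ∃ A B : Set X, IsOpen A ∧ IsOpen B ∧ p.1 ∈ A ∧ p.2 ∈ B ∧
        A ×ˢ B ⊆ W (j p) := by
      intro p
      obtain ⟨A, B, hA, hB, h1, h2, h3⟩ := isOpen_prod_iff.1 (hW (j p)) p.1 p.2 (hj p)
      exact ⟨A, B, hA, hB, h1, h2, h3⟩
    choose A B hA hB h1 h2 h3 using hbox
    let V : X → Set X := fun x => ⋂ y ∈ F, (A (x, y) ∩ B (y, x))
    refine ⟨⋃ x ∈ F, V x, ⟨?_, ?_⟩, ?_⟩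
    · exact isOpen_biUnion fun x _ => hF.isOpen_biInter fun y _ => (hA _).inter (hB _)
    · refine ⟨j '' (F ×ˢ F), (hF.prod hF).image j, ?_⟩
      rintro ⟨u, v⟩ ⟨hu, hv⟩
      obtain ⟨x, hx, hux⟩ := mem_iUnion₂.1 hu
      obtain ⟨y, hy, hvy⟩ := mem_iUnion₂.1 hv
      refine mem_biUnion (x := j (x, y)) ⟨(x, y), ⟨hx, hy⟩, rfl⟩ (h3 (x, y) ⟨?_, ?_⟩)
      · exact (mem_iInter₂.1 hux y hy).1
      · exact (mem_iInter₂.1 hvy x hx).2
    · intro x hx
      exact mem_biUnion hx (mem_iInter₂.2 fun y _ => ⟨h1 (x, y), h2 (y, x)⟩)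
  by_cases hu : univ ∈ 𝒰
  · obtain ⟨-, t, ht, htW⟩ := hu
    exact ⟨t, ht.countable, by rw [univ_prod_univ] at htW; exact htW⟩
  have hom : IsOmegaCover 𝒰 := by
    refine ⟨⟨fun U hU => hU.1, ?_⟩, hu, hfin⟩
    rw [eq_univ_iff_forall]
    intro x
    obtain ⟨U, hU, hx⟩ := hfin {x} (finite_singleton x)
    exact ⟨U, hU, hx rfl⟩
  obtain ⟨U, hU, hUom⟩ := hX (fun _ => 𝒰) (fun _ => hom)
  choose t ht htW using fun n => (hU n).2
  refine ⟨⋃ n, t n, countable_iUnion fun n => (ht n).countable, ?_⟩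
  rintro ⟨x, y⟩ _
  obtain ⟨_, ⟨n, rfl⟩, hxy⟩ := hUom.2.2 {x, y} (by simp)
  have h1 := htW n (⟨hxy (by simp), hxy (by simp)⟩ : (x, y) ∈ U n ×ˢ U n)
  obtain ⟨i, hi, hi'⟩ := mem_iUnion₂.1 h1
  exact mem_biUnion (mem_iUnion.2 ⟨n, hi⟩) hi'

/-- A Lindelöf space with a basis of clopen sets and only countable continuous images in the Cantor
set is Rothberger. -/
theorem rothberger_of_countable {X : Type} [TopologicalSpace X] [Nonempty X] [LindelofSpace X]
    (hbase : ∀ (x : X) (U : Set X), IsOpen U → x ∈ U → ∃ V : Set X, x ∈ V ∧ V ⊆ U ∧ IsClopen V)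
    (himg : ∀ f : X → ℕ → ℕ → Bool, Continuous f → (range f).Countable) : Rothberger X := by
  classical
  intro 𝒰 h𝒰
  have h1 : ∀ (n : ℕ) (x : X), ∃ U V : Set X, U ∈ 𝒰 n ∧ x ∈ V ∧ V ⊆ U ∧ IsClopen V := by
    intro n x
    have hx : x ∈ ⋃₀ 𝒰 n := by rw [(h𝒰 n).2]; trivial
    obtain ⟨U, hU, hxU⟩ := hx
    obtain ⟨V, h1, h2, h3⟩ := hbase x U ((h𝒰 n).1 U hU) hxU
    exact ⟨U, V, hU, h1, h2, h3⟩
  choose U V hU hV hVU hVc using h1
  have h2 : ∀ n, ∃ k : ℕ → X, ⋃ i, V n (k i) = univ := by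
    intro n
    obtain ⟨c, hc, hcV⟩ := isLindelof_univ.elim_countable_subcover (V n)
      (fun x => (hVc n x).isOpen) fun x _ => mem_iUnion.2 ⟨x, hV n x⟩
    have hcne : c.Nonempty := by
      obtain ⟨x⟩ : Nonempty X := inferInstance
      obtain ⟨i, hi, -⟩ := mem_iUnion₂.1 (hcV (mem_univ x))
      exact ⟨i, hi⟩
    obtain ⟨k, hk⟩ := hc.exists_eq_range hcne
    refine ⟨k, eq_univ_iff_forall.2 fun x => ?_⟩
    obtain ⟨i, hi, hxi⟩ := mem_iUnion₂.1 (hcV (mem_univ x))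
    rw [hk] at hi
    obtain ⟨l, rfl⟩ := hi
    exact mem_iUnion.2 ⟨l, hxi⟩
  choose k hk using h2
  let f : X → ℕ → ℕ → Bool := fun x n i => decide (x ∈ V n (k n i))
  have hf : Continuous f := by
    refine continuous_pi fun n => continuous_pi fun i => ?_
    rw [continuous_bool_rng true]
    have h3 : (fun a : X => f a n i) ⁻¹' {true} = V n (k n i) := by
      ext a
      exact decide_eq_true_iff
    rw [h3]
    exact hVc n (k n i)
  obtain ⟨y, hy⟩ := (himg f hf).exists_eq_range (range_nonempty f)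
  have h3 : ∀ n, ∃ x, f x = y n := fun n => by
    have : y n ∈ range f := by rw [hy]; exact ⟨n, rfl⟩
    exact this
  choose x hx using h3
  have h4 : ∀ n, ∃ i, x n ∈ V n (k n i) := fun n => mem_iUnion.1 (by rw [hk n]; trivial)
  choose i hi using h4
  refine ⟨fun n => U n (k n (i n)), fun n => hU n _, ?_, ?_⟩
  · rintro _ ⟨n, rfl⟩
    exact (h𝒰 n).1 _ (hU n _)
  · rw [eq_univ_iff_forall]
    intro z
    obtain ⟨n, hn⟩ : f z ∈ range y := by rw [← hy]; exact ⟨z, rfl⟩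
    refine ⟨_, ⟨n, rfl⟩, hVU n _ ?_⟩
    have h5 : f z n (i n) = f (x n) n (i n) := by rw [hx n, hn]
    have h6 : f (x n) n (i n) = true := decide_eq_true (hi n)
    rw [h6] at h5
    exact of_decide_eq_true h5

/-! ### The space -/

open Pool.Agent.Results.MP_b69c94_gt.SquareNotLindelof

section final

variable {Ω T : Type} [LinearOrder Ω] [PartialOrder T] {𝒯 : ATree Ω T}

theorem base_Sp {A : Set Ω} (hAL : ∀ a ∈ A, Lim a) (x : Sp 𝒯 A) (U : Set (Sp 𝒯 A))
    (hU : IsOpen U) (hx : x ∈ U) : ∃ V : Set (Sp 𝒯 A), x ∈ V ∧ V ⊆ U ∧ IsClopen V := by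
  obtain ⟨V, h1, h2, h3, h4⟩ := exists_clopen (𝒯 := 𝒯) (P := {t | 𝒯.lv t ∈ A})
    (fun p hp => hAL _ hp) x U hU hx
  exact ⟨V, h1, h2, ⟨h4, h3⟩⟩

variable [WellFoundedLT Ω] [Uncountable Ω]

include 𝒯 in
theorem main (hc : ∀ a : Ω, (Iio a).Countable) (hT : Uncountable T) :
    ∃ (X : Type) (_ : TopologicalSpace X), T35Space X ∧ Rothberger X ∧ ¬ LindelofSpace (X × X) := by
  obtain ⟨A, B, hA, hB, hAB, hAL, hBL⟩ := exists_disjoint hc
  have hLA : LindelofSpace (Sp 𝒯 A) := lindelof 𝒯 hc A hA hAL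
  have hLB : LindelofSpace (Sp 𝒯 B) := lindelof 𝒯 hc B hB hBL
  have hTA : T3Space (Sp 𝒯 A) := t3 (𝒯 := 𝒯) (P := {t | 𝒯.lv t ∈ A}) fun p hp => hAL _ hp
  have hTB : T3Space (Sp 𝒯 B) := t3 (𝒯 := 𝒯) (P := {t | 𝒯.lv t ∈ B}) fun p hp => hBL _ hp
  have hTC : T3Space (Sp 𝒯 (A ∪ B)) :=
    t3 (𝒯 := 𝒯) (P := {t | 𝒯.lv t ∈ A ∪ B}) fun p hp => hp.elim (hAL _) (hBL _)
  have hTne : Nonempty (Sp 𝒯 A) := by
    obtain ⟨t⟩ : Nonempty T := inferInstance
    exact ⟨t⟩
  refine ⟨Sp 𝒯 A ⊕ Sp 𝒯 B, inferInstance, ?_, ?_, ?_⟩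
  · have : RegularSpace (Sp 𝒯 A ⊕ Sp 𝒯 B) := regular_sum
    infer_instance
  · apply rothberger_of_countable
    · rintro (x | x) U hU hx
      · obtain ⟨V, h1, h2, h3⟩ := base_Sp hAL x (Sum.inl ⁻¹' U) (hU.preimage continuous_inl) hx
        refine ⟨Sum.inl '' V, ⟨x, h1, rfl⟩, ?_, ?_⟩
        · rintro _ ⟨v, hv, rfl⟩
          exact h2 hv
        · exact ⟨isClosedMap_inl _ h3.1, isOpenMap_inl _ h3.2⟩
      · obtain ⟨V, h1, h2, h3⟩ := base_Sp hBL x (Sum.inr ⁻¹' U) (hU.preimage continuous_inr) hx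
        refine ⟨Sum.inr '' V, ⟨x, h1, rfl⟩, ?_, ?_⟩
        · rintro _ ⟨v, hv, rfl⟩
          exact h2 hv
        · exact ⟨isClosedMap_inr _ h3.1, isOpenMap_inr _ h3.2⟩
    · intro f hf
      have h1 : (range (fun x : Sp 𝒯 A => f (Sum.inl x))).Countable :=
        countable_img' hc A hA hAL _ (hf.comp continuous_inl)
      have h2 : (range (fun x : Sp 𝒯 B => f (Sum.inr x))).Countable :=
        countable_img' hc B hB hBL _ (hf.comp continuous_inr)
      refine (h1.union h2).mono ?_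
      rintro _ ⟨x | x, rfl⟩
      · exact Or.inl ⟨x, rfl⟩
      · exact Or.inr ⟨x, rfl⟩
  · intro hL
    let d : T → (Sp 𝒯 A ⊕ Sp 𝒯 B) × (Sp 𝒯 A ⊕ Sp 𝒯 B) := fun t => (Sum.inl t, Sum.inr t)
    let φ : Sp 𝒯 A ⊕ Sp 𝒯 B → Sp 𝒯 (A ∪ B) := Sum.elim (toSp 𝒯) (toSp 𝒯)
    have hφ : Continuous φ := (continuous_toSp subset_union_left).sumElim
      (continuous_toSp subset_union_right)
    have hcl : IsClosed (range d) := by
      have : range d = (Prod.fst ⁻¹' (range Sum.inl) ∩ Prod.snd ⁻¹' (range Sum.inr)) ∩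
          {p | φ p.1 = φ p.2} := by
        ext ⟨x, y⟩
        constructor
        · rintro ⟨t, ht⟩
          obtain ⟨rfl, rfl⟩ := Prod.mk.inj ht
          exact ⟨⟨⟨t, rfl⟩, ⟨t, rfl⟩⟩, rfl⟩
        · rintro ⟨⟨⟨t, rfl⟩, ⟨t', rfl⟩⟩, h⟩
          have h : t = t' := h
          subst h
          exact ⟨t, rfl⟩
      rw [this]
      exact ((isClosed_range_inl.preimage continuous_fst).inter
        (isClosed_range_inr.preimage continuous_snd)).inter
        (isClosed_eq (hφ.comp continuous_fst) (hφ.comp continuous_snd))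
    have hlin : IsLindelof (range d) := hcl.isLindelof
    classical
    let W : T → Set ((Sp 𝒯 A ⊕ Sp 𝒯 B) × (Sp 𝒯 A ⊕ Sp 𝒯 B)) := fun t =>
      if 𝒯.lv t ∈ A then univ ×ˢ (Sum.inr '' ({t} : Set (Sp 𝒯 B)))
        else (Sum.inl '' ({t} : Set (Sp 𝒯 A))) ×ˢ univ
    have hW : ∀ t, IsOpen (W t) := by
      intro t
      by_cases h : 𝒯.lv t ∈ A
      · simp only [W, if_pos h]
        exact isOpen_univ.prod (isOpenMap_inr _
          (isOpen_sing hBL t (fun h' => (Set.disjoint_left.1 hAB h) h')))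
      · simp only [W, if_neg h]
        exact IsOpen.prod (isOpenMap_inl _ (isOpen_sing hAL t h)) isOpen_univ
    have hW1 : ∀ t s, d s ∈ W t ↔ s = t := by
      intro t s
      by_cases h : 𝒯.lv t ∈ A
      · simp only [W, if_pos h]
        constructor
        · rintro ⟨-, t', ht', h2⟩
          have ht' : t' = t := ht'
          exact (Sum.inr_injective h2).symm.trans ht'
        · rintro rfl
          exact ⟨mem_univ _, ⟨_, rfl, rfl⟩⟩
      · simp only [W, if_neg h]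
        constructor
        · rintro ⟨⟨t', ht', h2⟩, -⟩
          have ht' : t' = t := ht'
          exact (Sum.inl_injective h2).symm.trans ht'
        · rintro rfl
          exact ⟨⟨_, rfl, rfl⟩, mem_univ _⟩
    obtain ⟨c, hcc, hcs⟩ := hlin.elim_countable_subcover W hW (by
      rintro _ ⟨t, rfl⟩
      exact mem_iUnion.2 ⟨t, (hW1 t t).2 rfl⟩)
    have : (univ : Set T) ⊆ c := by
      intro t _
      obtain ⟨s, hs, hts⟩ := mem_iUnion₂.1 (hcs ⟨t, rfl⟩)
      rw [hW1] at hts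
      rw [hts]
      exact hs
    exact not_countable_univ (hcc.mono this)

end final

/-- **Q1, the negated form, in ZFC**: there is a Tychonoff space `X` which is Rothberger and not
`ω`-Rothberger; moreover the square of `X` is not even Lindelöf. -/
theorem result : ∃ (X : Type) (_ : TopologicalSpace X),
    T35Space X ∧ Rothberger X ∧ ¬ OmegaRothberger X ∧ ¬ LindelofSpace (X × X) := by
  obtain ⟨Ω, _, _, _, hc⟩ := exists_omega
  choose C hC1 hC2 hC3 using exists_ladder hc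
  have 𝒯 : ATree Ω (Node C) := Node.tree hc hC1 hC2 hC3
  have hT : Uncountable (Node C) := Node.uncountable (C := C) hc hC1 hC2 hC3
  obtain ⟨X, tX, h1, h2, h3⟩ := main (𝒯 := 𝒯) hc hT
  exact ⟨X, tX, h1, h2, fun h => h3 (lindelof_square h), h3⟩

end Pool.Agent.Results.MP_f9bcb0_lc.RothbergerNotOmega
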